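import Mathlib
import Pool.Agent.H759R2.Kad.Props7

open scoped ComplexOrder InnerProductSpace ComplexConjugate
open Finset

noncomputable section

namespace H759R2.Kad

universe u v

namespace Q7

section basic

variable {A : Type u} [CStarAlgebra A]

theorem mul_init {v e : A} (h : star v * v = e) (he : Prj e) : v * e = v := by
  have h1 : star (v * e - v) * (v * e - v) = 0 := by
    have : star (v * e - v) * (v * e - v) =
        e * (star v * v) * e - e * (star v * v) - (star v * v) * e + star v * v := by
      rw [star_sub, star_mul, he.1]; noncomm_ring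
    rw [this, h, he.2, he.2]; simp
  exact sub_eq_zero.mp (CStarRing.star_mul_self_eq_zero_iff _ |>.mp h1)

theorem prj_range {v e : A} (h : star v * v = e) (he : Prj e) : Prj (v * star v) := by
  refine ⟨by rw [star_mul, star_star], ?_⟩
  have : v * star v * (v * star v) = v * (star v * v) * star v := by noncomm_ring
  rw [this, h, mul_init h he]

theorem pos_iff [PartialOrder A] [StarOrderedRing A] (x : A) : Pos x ↔ 0 ≤ x :=
  (CStarAlgebra.nonneg_iff_eq_star_mul_self).symm

theorem cprj_star {z : A} (hz : CPrj z) : star z = z := hz.1.1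

theorem one_sub_cprj {z : A} (hz : CPrj z) : CPrj (1 - z) := by
  refine ⟨⟨by rw [star_sub, star_one, hz.1.1], ?_⟩, fun a => ?_⟩
  · have : (1 - z) * (1 - z) = 1 - z - z + z * z := by noncomm_ring
    rw [this, hz.1.2]; abel
  · rw [sub_mul, mul_sub, one_mul, mul_one, hz.2 a]

theorem cmul_prj {z e : A} (hz : CPrj z) (he : Prj e) : Prj (z * e) := by
  refine ⟨by rw [star_mul, hz.1.1, he.1, hz.2], ?_⟩
  have : z * e * (z * e) = z * (e * z) * e := by noncomm_ring
  rw [this, ← hz.2 e]
  have : z * (z * e) * e = (z * z) * (e * e) := by noncomm_ring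
  rw [this, hz.1.2, he.2]

theorem map_prj {B : Type u} [CStarAlgebra B] (q : A →⋆ₐ[ℂ] B) {e : A} (he : Prj e) :
    Prj (q e) := ⟨by rw [← map_star, he.1], by rw [← map_mul, he.2]⟩

end basic

section corner

variable {F : Type u} [CStarAlgebra F] [PartialOrder F] [StarOrderedRing F]

/-- if every real `t` is a lower or an upper bound then the element is a multiple of `P` -/
theorem scalar_of_dich (P b : F) (hP : Prj P) (hP0 : P ≠ 0) (hb : star b = b) (hPb : P * b = b)
    (h : ∀ t : ℝ, 0 ≤ b - (t : ℂ) • P ∨ 0 ≤ (t : ℂ) • P - b) : ∃ l : ℝ, b = (l : ℂ) • P := by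
  have hbP : b * P = b := by
    have := congrArg star hPb
    rwa [star_mul, hb, hP.1] at this
  have hPnn : (0 : F) ≤ P := by
    have := star_mul_self_nonneg P
    rwa [hP.1, hP.2] at this
  have hsa : IsSelfAdjoint b := hb
  have hup : 0 ≤ ((‖b‖ : ℝ) : ℂ) • P - b := by
    have h1 : 0 ≤ algebraMap ℝ F ‖b‖ - b := sub_nonneg.mpr hsa.le_algebraMap_norm_self
    have h2 := star_left_conjugate_nonneg h1 P
    have h3 : star P * (algebraMap ℝ F ‖b‖ - b) * P = ((‖b‖ : ℝ) : ℂ) • P - b := by
      rw [hP.1, mul_sub, sub_mul, hPb, hbP, Algebra.algebraMap_eq_smul_one, mul_smul_comm,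
        smul_mul_assoc, mul_one, hP.2, Complex.coe_smul]
    rwa [h3] at h2
  have hlo : 0 ≤ b - ((-‖b‖ : ℝ) : ℂ) • P := by
    have h1 : 0 ≤ algebraMap ℝ F ‖b‖ + b := by
      have := hsa.neg_algebraMap_norm_le_self
      have := sub_nonneg.mpr this
      rwa [sub_neg_eq_add, add_comm] at this
    have h2 := star_left_conjugate_nonneg h1 P
    have h3 : star P * (algebraMap ℝ F ‖b‖ + b) * P = b - ((-‖b‖ : ℝ) : ℂ) • P := by
      rw [hP.1, mul_add, add_mul, hPb, hbP, Algebra.algebraMap_eq_smul_one, mul_smul_comm,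
        smul_mul_assoc, mul_one, hP.2, Complex.coe_smul, neg_smul, sub_neg_eq_add, add_comm]
    rwa [h3] at h2
  set S : Set ℝ := {t : ℝ | 0 ≤ b - (t : ℂ) • P} with hS
  set T : Set ℝ := {t : ℝ | 0 ≤ (t : ℂ) • P - b} with hT
  have hcl : IsClosed {x : F | 0 ≤ x} := CStarAlgebra.isClosed_nonneg
  have hSc : IsClosed S := by
    apply hcl.preimage
    fun_prop
  have hTc : IsClosed T := by
    apply hcl.preimage
    fun_prop
  have hSne : S.Nonempty := ⟨-‖b‖, hlo⟩
  have hSbd : BddAbove S := by
    refine ⟨‖b‖, fun t ht => ?_⟩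
    by_contra hlt
    push Not at hlt
    have h1 : 0 ≤ ((‖b‖ : ℝ) : ℂ) • P - (t : ℂ) • P := by
      have := add_nonneg hup (show 0 ≤ b - (t : ℂ) • P from ht)
      rwa [sub_add_sub_cancel] at this
    have h2 : (0 : F) ≤ ((t - ‖b‖ : ℝ) : ℂ) • P := by
      rw [Complex.coe_smul]
      exact smul_nonneg (sub_nonneg.mpr hlt.le) hPnn
    have h3 : ((‖b‖ : ℝ) : ℂ) • P - (t : ℂ) • P = - (((t - ‖b‖ : ℝ) : ℂ) • P) := by
      rw [Complex.ofReal_sub, sub_smul]; abel
    rw [h3] at h1
    have h4 : ((t - ‖b‖ : ℝ) : ℂ) • P = 0 := le_antisymm (neg_nonneg.mp h1) h2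
    rcases smul_eq_zero.mp h4 with h5 | h5
    · rw [Complex.ofReal_eq_zero] at h5; linarith
    · exact hP0 h5
  have hαS : sSup S ∈ S := hSc.csSup_mem hSne hSbd
  have hαT : sSup S ∈ T := by
    have h1 : Set.Ioi (sSup S) ⊆ T := by
      intro t ht
      rcases h t with h2 | h2
      · exact absurd (le_csSup hSbd (show t ∈ S from h2)) (not_le.mpr ht)
      · exact h2
    have h2 : closure (Set.Ioi (sSup S)) ⊆ T := closure_minimal h1 hTc
    rw [closure_Ioi] at h2
    exact h2 Set.self_mem_Ici
  refine ⟨sSup S, ?_⟩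
  have h1 : 0 ≤ b - ((sSup S : ℝ) : ℂ) • P := hαS
  have h2 : 0 ≤ ((sSup S : ℝ) : ℂ) • P - b := hαT
  exact le_antisymm (sub_nonneg.mp h2) (sub_nonneg.mp h1)

end corner

section main

variable {A : Type u} [CStarAlgebra A] {F : Type u} [CStarAlgebra F]

theorem ext0 (q : A →⋆ₐ[ℂ] F) (r : A) (n : ℕ)
    (hmax : ∀ (t' : Fin (n + 2) → A) (p' : A), Tup t' p' → (∀ i, r * t' i = t' i) → q p' = 0)
    (s : Fin (n + 1) → A) (w e : A) (he : Prj e)
    (h1 : ∀ i j, star (s i) * s j = if i = j then e else 0) (h2 : star w * w = e)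
    (h3 : ∀ i, star (s i) * w = 0) (h4 : ∀ i, r * s i = s i) (h5 : r * w = w) : q e = 0 := by
  apply hmax (Fin.snoc s w) e
  · refine ⟨he, ?_⟩
    intro i j
    refine Fin.lastCases ?_ (fun i' => ?_) i
    · refine Fin.lastCases ?_ (fun j' => ?_) j
      · simp only [Fin.snoc_last, if_true]; exact h2
      · rw [Fin.snoc_last, Fin.snoc_castSucc, if_neg (Fin.castSucc_ne_last j').symm]
        have := congrArg star (h3 j')
        rwa [star_mul, star_star, star_zero] at this
    · refine Fin.lastCases ?_ (fun j' => ?_) j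
      · rw [Fin.snoc_last, Fin.snoc_castSucc, if_neg (Fin.castSucc_ne_last i')]
        exact h3 i'
      · rw [Fin.snoc_castSucc, Fin.snoc_castSucc, h1]
        by_cases hij : i' = j'
        · subst hij; simp
        · rw [if_neg hij, if_neg (fun h => hij (Fin.castSucc_injective _ h))]
  · intro i
    refine Fin.lastCases ?_ (fun i' => ?_) i
    · rw [Fin.snoc_last]; exact h5
    · rw [Fin.snoc_castSucc]; exact h4 i'

theorem sub_case (q : A →⋆ₐ[ℂ] F) (r : A) (n : ℕ)
    (hmax : ∀ (t' : Fin (n + 2) → A) (p' : A), Tup t' p' → (∀ i, r * t' i = t' i) → q p' = 0)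
    (t : Fin (n + 1) → A) (p : A) (hT : Tup t p) (hr : ∀ i, r * t i = t i)
    (v e f : A) (he : Prj e) (hf : Prj f) (hv : star v * v = e) (hfv : f * v = v)
    (hef : e * f = 0) (hpe : p * e = e) (hpf : p * f = f) : q e = 0 := by
  have hpv : p * v = v := by rw [← hfv, ← mul_assoc, hpf]
  have hev : e * v = 0 := by rw [← hfv, ← mul_assoc, hef, zero_mul]
  apply ext0 q r n hmax (fun i => t i * e) (t 0 * v) e he
  · intro i j
    have : star (t i * e) * (t j * e) = e * (star (t i) * t j) * e := by
      rw [star_mul, he.1]; noncomm_ring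
    rw [this, hT.rel]
    split_ifs
    · rw [mul_assoc, hpe, he.2]
    · simp
  · have : star (t 0 * v) * (t 0 * v) = star v * ((star (t 0) * t 0) * v) := by
      rw [star_mul]; noncomm_ring
    rw [this, hT.rel, if_pos rfl, hpv, hv]
  · intro i
    have : star (t i * e) * (t 0 * v) = e * ((star (t i) * t 0) * v) := by
      rw [star_mul, he.1]; noncomm_ring
    rw [this, hT.rel]
    split_ifs
    · rw [hpv, hev]
    · simp
  · intro i; rw [← mul_assoc, hr]
  · rw [← mul_assoc, hr]

theorem dich (hVN : VN A) {𝒰 : Set A} (q : A →⋆ₐ[ℂ] F) (hF : Fib 𝒰 q) (r : A) (n : ℕ)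
    (hmax : ∀ (t' : Fin (n + 2) → A) (p' : A), Tup t' p' → (∀ i, r * t' i = t' i) → q p' = 0)
    (t : Fin (n + 1) → A) (p : A) (hT : Tup t p) (hr : ∀ i, r * t i = t i)
    (e f : A) (he : Prj e) (hf : Prj f) (hef : e * f = 0) (hpe : p * e = e) (hpf : p * f = f) :
    q e = 0 ∨ q f = 0 := by
  have hfe : f * e = 0 := by
    have := congrArg star hef
    rwa [star_mul, he.1, hf.1, star_zero] at this
  obtain ⟨z, hz, ⟨v, hv1, hv2⟩, ⟨w, hw1, hw2⟩⟩ := hVN.comp e f he hf
  rcases hF.ult.dich z hz with hzU | hzU
  · left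
    have h1 := sub_case q r n hmax t p hT hr v (z * e) (z * f) (cmul_prj hz he) (cmul_prj hz hf)
      hv1 hv2 (by rw [hz.2 f, ← mul_assoc, mul_assoc z e f, hef, mul_zero, zero_mul])
      (by rw [← mul_assoc, ← hz.2 p, mul_assoc, hpe]) (by rw [← mul_assoc, ← hz.2 p, mul_assoc, hpf])
    rwa [map_mul, hF.one z hzU, one_mul] at h1
  · right
    have hz' := one_sub_cprj hz
    have h1 := sub_case q r n hmax t p hT hr w ((1 - z) * f) ((1 - z) * e) (cmul_prj hz' hf)
      (cmul_prj hz' he) hw1 hw2
      (by rw [hz'.2 e, ← mul_assoc, mul_assoc (1 - z) f e, hfe, mul_zero, zero_mul])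
      (by rw [← mul_assoc, ← hz'.2 p, mul_assoc, hpf])
      (by rw [← mul_assoc, ← hz'.2 p, mul_assoc, hpe])
    rwa [map_mul, hF.one _ hzU, one_mul] at h1

theorem minimal (hVN : VN A) {𝒰 : Set A} (q : A →⋆ₐ[ℂ] F) (hF : Fib 𝒰 q) (r : A) (n : ℕ)
    (hmax : ∀ (t' : Fin (n + 2) → A) (p' : A), Tup t' p' → (∀ i, r * t' i = t' i) → q p' = 0)
    (t : Fin (n + 1) → A) (p : A) (hT : Tup t p) (hr : ∀ i, r * t i = t i) (hp0 : q p ≠ 0)
    (y : F) : ∃ l : ℂ, q p * y * q p = l • q p := by
  have hp := hT.pr
  -- self-adjoint elements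
  have key : ∀ b : A, star b = b → p * b = b → ∃ l : ℝ, q b = (l : ℂ) • q p := by
    intro b hb hpb
    have hbp : b * p = b := by
      have := congrArg star hpb
      rwa [star_mul, hb, hp.1] at this
    let _ := CStarAlgebra.spectralOrder F
    have := CStarAlgebra.spectralOrderedRing F
    apply scalar_of_dich (q p) (q b) (map_prj q hp) hp0 (by rw [← map_star, hb])
      (by rw [← map_mul, hpb])
    intro τ
    obtain ⟨e, he, hpe, hcom, ⟨y1, hy1⟩, ⟨y2, hy2⟩⟩ := hVN.spec p b τ hp hb hpb
    have hep : e * p = e := by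
      have := congrArg star hpe
      rwa [star_mul, he.1, hp.1] at this
    have hf : Prj (p - e) := by
      refine ⟨by rw [star_sub, hp.1, he.1], ?_⟩
      have : (p - e) * (p - e) = p * p - p * e - e * p + e * e := by noncomm_ring
      rw [this, hp.2, he.2, hpe, hep]; abel
    have hef : e * (p - e) = 0 := by rw [mul_sub, hep, he.2, sub_self]
    have hpf : p * (p - e) = p - e := by rw [mul_sub, hp.2, hpe]
    have hn1 : (0 : F) ≤ q (b * e - (τ : ℂ) • e) := by
      rw [hy1, map_mul, map_star]; exact star_mul_self_nonneg _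
    have hn2 : (0 : F) ≤ q ((τ : ℂ) • (p - e) - b * (p - e)) := by
      rw [hy2, map_mul, map_star]; exact star_mul_self_nonneg _
    rcases dich hVN q hF r n hmax t p hT hr e (p - e) he hf hef hpe hpf with h | h
    · right
      have : q ((τ : ℂ) • (p - e) - b * (p - e)) = (τ : ℂ) • q p - q b := by
        rw [mul_sub, hbp, map_sub, map_smul, map_sub, map_sub, map_mul, h, mul_zero, sub_zero,
          sub_zero]
      rwa [this] at hn2
    · left
      have h2 : q e = q p := by
        have : q (p - e) = q p - q e := map_sub q p e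
        rw [h] at this
        exact (sub_eq_zero.mp this.symm).symm
      have : q (b * e - (τ : ℂ) • e) = q b - (τ : ℂ) • q p := by
        rw [map_sub, map_smul, map_mul, h2, ← map_mul, hbp]
      rwa [this] at hn1
  obtain ⟨a, rfl⟩ := hF.surj y
  -- real and imaginary parts of p * a * p
  set c := p * a * p with hc
  have hcs : star c = p * star a * p := by
    rw [hc, star_mul, star_mul, hp.1]; noncomm_ring
  have hpc : p * c = c := by rw [hc, ← mul_assoc, ← mul_assoc, hp.2]
  have hpcs : p * star c = star c := by rw [hcs, ← mul_assoc, ← mul_assoc, hp.2]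
  obtain ⟨l1, hl1⟩ := key ((1 / 2 : ℂ) • (c + star c))
    (by rw [star_smul, star_add, star_star, add_comm (star c) c]; simp)
    (by rw [mul_smul_comm, mul_add, hpc, hpcs])
  obtain ⟨l2, hl2⟩ := key ((Complex.I / 2 : ℂ) • (star c - c))
    (by
      rw [star_smul, star_sub, star_star, ← neg_sub (star c) c, smul_neg, ← neg_smul]
      congr 1
      simp
      ring)
    (by rw [mul_smul_comm, mul_sub, hpc, hpcs])
  refine ⟨(l1 : ℂ) + Complex.I * l2, ?_⟩
  have e1 : c = (1 / 2 : ℂ) • (c + star c) + Complex.I • ((Complex.I / 2 : ℂ) • (star c - c)) := by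
    rw [smul_smul]
    have : Complex.I * (Complex.I / 2) = -(1 / 2 : ℂ) := by
      have := Complex.I_mul_I
      linear_combination (1 / 2 : ℂ) * this
    rw [this, neg_smul, ← smul_neg, neg_sub, ← smul_add]
    have : c + star c + (c - star c) = (2 : ℂ) • c := by rw [two_smul]; abel
    rw [this, smul_smul]; norm_num
  have e2 : q p * q a * q p = q c := by rw [hc, map_mul, map_mul]
  rw [e2, e1, map_add, map_smul q Complex.I, hl1, hl2, smul_smul, ← add_smul]

end main

end Q7

theorem prove7_min : Q_min.{u} := by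
  intro A _ hVN 𝒰 F _ q hF r hr n t p hT hp0 hrt hmax
  have hp := hT.pr
  have hmin := Q7.minimal hVN q hF r n hmax t p hT hrt hp0
  have htp : ∀ i, t i * p = t i := fun i => Q7.mul_init (by rw [hT.rel, if_pos rfl]) hp
  have htr : ∀ i, star (t i) * r = star (t i) := by
    intro i
    have := congrArg star (hrt i)
    rwa [star_mul, hr.1] at this
  -- the rest
  set G := ∑ i, t i * star (t i) with hG
  have hGs : star G = G := by
    rw [hG, star_sum]
    apply Finset.sum_congr rfl
    intro i _
    rw [star_mul, star_star]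
  have htG : ∀ i, star (t i) * G = star (t i) := by
    intro i
    rw [hG, Finset.mul_sum, Finset.sum_eq_single i]
    · rw [← mul_assoc, hT.rel, if_pos rfl]
      have := congrArg star (htp i)
      rwa [star_mul, hp.1] at this
    · intro j _ hji
      rw [← mul_assoc, hT.rel, if_neg (Ne.symm hji), zero_mul]
    · simp
  have hGG : G * G = G := by
    conv_lhs => rw [hG, Finset.sum_mul]
    rw [hG]
    apply Finset.sum_congr rfl
    intro i _
    rw [mul_assoc, ← hG, htG]
  have hrG : r * G = G := by
    rw [hG, Finset.mul_sum]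
    apply Finset.sum_congr rfl
    intro i _
    rw [← mul_assoc, hrt]
  have hGr : G * r = G := by
    have := congrArg star hrG
    rwa [star_mul, hGs, hr.1] at this
  have hr1 : Prj (r - G) := by
    refine ⟨by rw [star_sub, hr.1, hGs], ?_⟩
    have : (r - G) * (r - G) = r * r - r * G - G * r + G * G := by noncomm_ring
    rw [this, hr.2, hrG, hGr, hGG]; abel
  have htr1 : ∀ i, star (t i) * (r - G) = 0 := by
    intro i; rw [mul_sub, htr, htG, sub_self]
  have hrr1 : r * (r - G) = r - G := by rw [mul_sub, hr.2, hrG]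
  have hq : q (r - G) = 0 := by
    obtain ⟨z, hz, ⟨v, hv1, hv2⟩, ⟨v', hv1', hv2'⟩⟩ := hVN.comp p (r - G) hp hr1
    rcases hF.ult.dich z hz with hzU | hzU
    · exfalso
      apply hp0
      have hzz : z * z = z := hz.1.2
      have htv : ∀ i, star (t i) * v = 0 := by
        intro i
        rw [← hv2, ← mul_assoc, ← mul_assoc, ← hz.2 (star (t i)), mul_assoc z, htr1, mul_zero,
          zero_mul]
      have h1 := Q7.ext0 q r n hmax (fun i => t i * z) v (z * p) (Q7.cmul_prj hz hp)
        (by
          intro i j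
          have : star (t i * z) * (t j * z) = z * (star (t i) * t j) * z := by
            rw [star_mul, hz.1.1]; noncomm_ring
          rw [this, hT.rel]
          split_ifs
          · rw [mul_assoc, ← hz.2 p, ← mul_assoc, hzz]
          · simp) hv1
        (by intro i; rw [star_mul, mul_assoc, htv, mul_zero])
        (by intro i; rw [← mul_assoc, hrt])
        (by
          rw [← hv2, ← mul_assoc, ← mul_assoc, ← hz.2 r, mul_assoc z r, hrr1])
      rwa [map_mul, hF.one z hzU, one_mul] at h1
    · have hz' := Q7.one_sub_cprj hz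
      set z' := 1 - z with hz'd
      have hPrjE : Prj (z' * (r - G)) := Q7.cmul_prj hz' hr1
      have hfP : Prj (v' * star v') := Q7.prj_range hv1' hPrjE
      have hpv : p * v' = v' := by
        rw [← hv2', ← mul_assoc, ← mul_assoc, ← hz'.2 p, mul_assoc z' p p, hp.2]
      obtain ⟨l, hl⟩ := hmin (q (v' * star v'))
      have hvp : star v' * p = star v' := by
        have := congrArg star hpv
        rwa [star_mul, hp.1] at this
      have h1 : q p * q (v' * star v') * q p = q (v' * star v') := by
        rw [← map_mul, ← map_mul, ← mul_assoc p, hpv, mul_assoc, hvp]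
      rw [h1] at hl
      have hPP : q p * q p = q p := by rw [← map_mul, hp.2]
      have h2 : l * l = l := by
        have h3 : q (v' * star v') * q (v' * star v') = q (v' * star v') := by
          rw [← map_mul, hfP.2]
        rw [hl, smul_mul_smul_comm, hPP] at h3
        have h4 : (l * l - l) • q p = 0 := by rw [sub_smul, h3, sub_self]
        rcases smul_eq_zero.mp h4 with h5 | h5
        · exact sub_eq_zero.mp h5
        · exact absurd h5 hp0
      have h3 : q (v' * star v') = 0 := by
        by_contra hne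
        apply hne
        have hvs : star v' = z' * (r - G) * star v' := by
          have := Q7.mul_init hv1' hPrjE
          have := congrArg star this
          rw [star_mul, hPrjE.1] at this
          exact this.symm
        have htvs : ∀ i, star (t i) * star v' = 0 := by
          intro i
          rw [hvs, ← mul_assoc, ← mul_assoc, ← hz'.2 (star (t i)), mul_assoc z', htr1, mul_zero,
            zero_mul]
        have hrvs : r * star v' = star v' := by
          rw [hvs, ← mul_assoc, ← mul_assoc, ← hz'.2 r, mul_assoc z' r, hrr1]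
        have hpf : p * (v' * star v') = v' * star v' := by rw [← mul_assoc, hpv]
        exact Q7.ext0 q r n hmax (fun i => t i * (v' * star v')) (star v') (v' * star v') hfP
          (by
            intro i j
            have : star (t i * (v' * star v')) * (t j * (v' * star v')) =
                (v' * star v') * ((star (t i) * t j) * (v' * star v')) := by
              rw [star_mul, hfP.1]; noncomm_ring
            rw [this, hT.rel]
            split_ifs
            · rw [hpf, hfP.2]
            · simp)
          (by rw [star_star])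
          (by intro i; rw [star_mul, mul_assoc, htvs, mul_zero])
          (by intro i; rw [← mul_assoc, hrt]) hrvs
      have h4 : q v' = 0 := by
        have h5 : q v' * star (q v') = 0 := by rw [← map_star, ← map_mul, h3]
        exact (CStarRing.mul_star_self_eq_zero_iff _).mp h5
      have h5 : q (z' * (r - G)) = 0 := by rw [← hv1', map_mul, h4, mul_zero]
      rwa [map_mul, hF.one _ hzU, one_mul] at h5
  refine ⟨n + 1, fun i => q (t i), q p, ⟨Q7.map_prj q hp, ?_⟩, hp0, hmin, ?_⟩
  · intro i j
    rw [← map_star, ← map_mul, hT.rel]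
    split_ifs
    · rfl
    · exact map_zero q
  · have h1 : q r = q G := by
      have : q (r - G) = q r - q G := map_sub q r G
      rw [hq] at this
      exact (sub_eq_zero.mp this.symm)
    rw [h1, hG, map_sum]
    apply Finset.sum_congr rfl
    intro i _
    rw [map_mul, map_star]

end H759R2.Kad
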