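import Mathlib
import Pool.Agent.H759R2.Kad.Props7
import Pool.Agent.H226R2.Kad4.Dix
import Pool.Agent.H756R2.Kad5.Min

open scoped ComplexOrder InnerProductSpace ComplexConjugate
open Finset

noncomputable section

namespace H759R2.Kad

universe u v

namespace Q9

section abs

variable {A : Type u} [CStarAlgebra A] [PartialOrder A] [StarOrderedRing A]

theorem iter (STEP : ∀ (h : A) (δ : ℝ), 0 ≤ δ → IsSelfAdjoint h → -(δ • (1 : A)) ≤ h →
      h ≤ δ • (1 : A) → ∃ u : A, star u = u ∧ u * u = 1 ∧ ∃ c : ℝ,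
      -((3 / 4 * δ) • (1 : A)) ≤ (2 : ℝ)⁻¹ • (h + u * h * u) - c • (1 : A) ∧
      (2 : ℝ)⁻¹ • (h + u * h * u) - c • (1 : A) ≤ (3 / 4 * δ) • (1 : A))
    {a : A} (ha : IsSelfAdjoint a) (k : ℕ) :
    ∃ (x : A) (c : ℝ), F06.Av a x ∧ IsSelfAdjoint x ∧
      -(((3 / 4) ^ k * ‖a‖) • (1 : A)) ≤ x - c • (1 : A) ∧
      x - c • (1 : A) ≤ ((3 / 4) ^ k * ‖a‖) • (1 : A) := by
  induction k with
  | zero =>
    refine ⟨a, 0, F06.Av.refl a, ha, ?_, ?_⟩
    · rw [pow_zero, one_mul, zero_smul, sub_zero, ← Algebra.algebraMap_eq_smul_one]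
      exact ha.neg_algebraMap_norm_le_self
    · rw [pow_zero, one_mul, zero_smul, sub_zero, ← Algebra.algebraMap_eq_smul_one]
      exact ha.le_algebraMap_norm_self
  | succ k ih =>
    obtain ⟨x, c, hx, hxs, h1, h2⟩ := ih
    have hs : IsSelfAdjoint (x - c • (1 : A)) := by
      apply hxs.sub
      exact (IsSelfAdjoint.all c).smul (IsSelfAdjoint.one A)
    obtain ⟨u, hu1, hu2, c', h3, h4⟩ := STEP _ _ (by positivity) hs h1 h2
    have e : (2 : ℝ)⁻¹ • (x - c • (1 : A) + u * (x - c • (1 : A)) * u) - c' • (1 : A) =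
        (2 : ℝ)⁻¹ • (x + u * x * u) - (c + c') • (1 : A) := by
      have e1 : u * (x - c • (1 : A)) * u = u * x * u - c • (1 : A) := by
        rw [mul_sub, sub_mul, mul_smul_comm, smul_mul_assoc, mul_one, hu2]
      have e2 : x - c • (1 : A) + (u * x * u - c • (1 : A)) =
          (x + u * x * u) - (2 * c) • (1 : A) := by
        rw [two_mul, add_smul]; abel
      rw [e1, e2, smul_sub, smul_smul, add_smul]
      have e3 : (2 : ℝ)⁻¹ * (2 * c) = c := by ring
      rw [e3]; abel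
    rw [e] at h3 h4
    refine ⟨(2 : ℝ)⁻¹ • (x + u * x * u), c + c', hx.step hu1 hu2, ?_, ?_, ?_⟩
    · apply IsSelfAdjoint.smul (IsSelfAdjoint.all _)
      apply hxs.add
      have := hxs.conjugate u
      rwa [hu1] at this
    · have e5 : (3 / 4 : ℝ) ^ (k + 1) * ‖a‖ = 3 / 4 * ((3 / 4) ^ k * ‖a‖) := by ring
      rw [e5]; exact h3
    · have e5 : (3 / 4 : ℝ) ^ (k + 1) * ‖a‖ = 3 / 4 * ((3 / 4) ^ k * ‖a‖) := by ring
      rw [e5]; exact h4

theorem main (STEP : ∀ (h : A) (δ : ℝ), 0 ≤ δ → IsSelfAdjoint h → -(δ • (1 : A)) ≤ h →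
      h ≤ δ • (1 : A) → ∃ u : A, star u = u ∧ u * u = 1 ∧ ∃ c : ℝ,
      -((3 / 4 * δ) • (1 : A)) ≤ (2 : ℝ)⁻¹ • (h + u * h * u) - c • (1 : A) ∧
      (2 : ℝ)⁻¹ • (h + u * h * u) - c • (1 : A) ≤ (3 / 4 * δ) • (1 : A))
    {τ : A →ₗ[ℂ] ℂ} (hτ : IsTracialState τ) : HasDixmier τ := by
  intro a ha ε hε
  haveI : Nontrivial A := by
    refine ⟨1, 0, fun h => ?_⟩
    have := hτ.one
    rw [h, map_zero] at this
    exact zero_ne_one this
  obtain ⟨k, hk⟩ : ∃ k : ℕ, (3 / 4 : ℝ) ^ k * ‖a‖ ≤ ε / 2 := by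
    have h1 : Filter.Tendsto (fun k : ℕ => (3 / 4 : ℝ) ^ k * ‖a‖) Filter.atTop (nhds (0 * ‖a‖)) :=
      (tendsto_pow_atTop_nhds_zero_of_lt_one (by norm_num) (by norm_num)).mul_const _
    rw [zero_mul] at h1
    exact (h1.eventually_le_const (by linarith : (0 : ℝ) < ε / 2)).exists
  obtain ⟨x, c, hx, hxs, h1, h2⟩ := iter STEP ha k
  have hτx : τ (x - c • (1 : A)) = τ a - c := by
    rw [map_sub, hx.trace hτ]
    congr 1
    have : c • (1 : A) = (c : ℂ) • (1 : A) := (Complex.coe_smul c (1 : A)).symm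
    rw [this, map_smul, hτ.one, smul_eq_mul, mul_one]
  have h3 := F06.tau_bound hτ h1 h2
  rw [hτx] at h3
  have h4 : ‖x - c • (1 : A)‖ ≤ (3 / 4) ^ k * ‖a‖ := by
    have hs : IsSelfAdjoint (x - c • (1 : A)) :=
      hxs.sub ((IsSelfAdjoint.all c).smul (IsSelfAdjoint.one A))
    rw [← Algebra.algebraMap_eq_smul_one, ← map_neg] at h1
    rw [← Algebra.algebraMap_eq_smul_one ((3 / 4) ^ k * ‖a‖)] at h2
    rw [algebraMap_le_iff_le_spectrum hs] at h1
    rw [le_algebraMap_iff_spectrum_le hs] at h2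
    rcases CStarAlgebra.norm_or_neg_norm_mem_spectrum hs with h6 | h6
    · exact h2 _ h6
    · have := h1 _ h6
      linarith
  have h5 : ‖x - algebraMap ℂ A (τ a)‖ ≤ ε := by
    have e : x - algebraMap ℂ A (τ a) = (x - c • (1 : A)) - algebraMap ℂ A (τ a - c) := by
      rw [map_sub, Algebra.algebraMap_eq_smul_one (c : ℂ), Complex.coe_smul]
      abel
    rw [e]
    refine (norm_sub_le _ _).trans ?_
    rw [norm_algebraMap']
    linarith
  obtain ⟨ι, _, _, g, hg⟩ := hx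
  obtain ⟨N, hN⟩ : ∃ N, Fintype.card ι = N + 1 :=
    ⟨Fintype.card ι - 1, by have : 0 < Fintype.card ι := Fintype.card_pos; omega⟩
  have eq : ι ≃ Fin (N + 1) := Fintype.equivFinOfCardEq hN
  refine ⟨N, fun i => g (eq.symm i), ?_⟩
  have e6 : ∑ i, (g (eq.symm i) : A) * a * star (g (eq.symm i) : A) =
      ∑ i, (g i : A) * a * star (g i : A) :=
    Equiv.sum_comp eq.symm (fun i => (g i : A) * a * star (g i : A))
  rw [e6]
  have e7 : ((N : ℂ) + 1) = (Fintype.card ι : ℂ) := by rw [hN]; push_cast; rfl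
  rw [e7, ← hg]
  exact h5

/-- positivity is reflected by injective *-homomorphisms -/
theorem nonneg_of_map {F : Type u} [CStarAlgebra F] [PartialOrder F] [StarOrderedRing F]
    (j : A →⋆ₙₐ[ℂ] F) (hj : Function.Injective j) {x : A} (hx : IsSelfAdjoint x) (h : 0 ≤ j x) :
    0 ≤ x := by
  have hn0 : 0 ≤ x⁻ := CFC.negPart_nonneg x
  have hns : star x⁻ = x⁻ := (IsSelfAdjoint.of_nonneg hn0)
  have hdec : x⁺ - x⁻ = x := CFC.posPart_sub_negPart x hx
  have h1 : x⁻ * x * x⁻ = -(x⁻ * x⁻ * x⁻) := by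
    calc x⁻ * x * x⁻ = x⁻ * (x⁺ - x⁻) * x⁻ := by rw [hdec]
      _ = (x⁻ * x⁺) * x⁻ - x⁻ * x⁻ * x⁻ := by noncomm_ring
      _ = _ := by rw [CFC.negPart_mul_posPart, zero_mul, zero_sub]
  have h2 : 0 ≤ j (x⁻ * x * x⁻) := by
    rw [map_mul, map_mul]
    have := star_left_conjugate_nonneg h (j x⁻)
    rwa [← map_star, hns] at this
  have h3 : 0 ≤ j (x⁻ * x⁻ * x⁻) := by
    have h4 : 0 ≤ x⁻ * x⁻ * x⁻ := by
      have := star_left_conjugate_nonneg hn0 x⁻
      rwa [hns] at this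
    rw [CStarAlgebra.nonneg_iff_eq_star_mul_self] at h4
    obtain ⟨y, hy⟩ := h4
    rw [hy, map_mul, map_star]
    exact star_mul_self_nonneg _
  rw [h1, map_neg] at h2
  have h4 : j (x⁻ * x⁻ * x⁻) = 0 := le_antisymm (neg_nonneg.mp h2) h3
  have h5 : x⁻ * x⁻ * x⁻ = 0 := hj (by rw [h4, map_zero])
  have h6 : star (x⁻ * x⁻) * (x⁻ * x⁻) = 0 := by
    rw [star_mul, hns, ← mul_assoc, h5, zero_mul]
  have h7 : x⁻ * x⁻ = 0 := (CStarRing.star_mul_self_eq_zero_iff _).mp h6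
  have h8 : star x⁻ * x⁻ = 0 := by rw [hns, h7]
  have h9 : x⁻ = 0 := (CStarRing.star_mul_self_eq_zero_iff _).mp h8
  rw [← hdec, h9, sub_zero]
  exact CFC.posPart_nonneg x

/-- the step for a projection `p` commuting with `h` -/
theorem step2 {h p : A} {δ : ℝ} (hδ : 0 ≤ δ) (hp : star p = p) (hpp : p * p = p)
    (hph : p * h = h * p) (h1 : -(δ • (1 : A)) ≤ h) (h2 : h ≤ δ • (1 : A))
    (h3 : 0 ≤ h * p) (h4 : 0 ≤ -(h * (1 - p)))
    (hv : (∃ v, star v * v = p ∧ (1 - p) * v = v) ∨ (∃ v, star v * v = 1 - p ∧ p * v = v)) :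
    ∃ u : A, star u = u ∧ u * u = 1 ∧ ∃ c : ℝ,
      -((3 / 4 * δ) • (1 : A)) ≤ (2 : ℝ)⁻¹ • (h + u * h * u) - c • (1 : A) ∧
      (2 : ℝ)⁻¹ • (h + u * h * u) - c • (1 : A) ≤ (3 / 4 * δ) • (1 : A) := by
  have hq : star (1 - p) = 1 - p := by rw [star_sub, star_one, hp]
  have hqq : (1 - p) * (1 - p) = 1 - p := by
    have : (1 - p) * (1 - p) = 1 - p - p + p * p := by noncomm_ring
    rw [this, hpp]; abel
  have hA : h ≤ δ • p := by
    have e1 : p * h * p = h * p := by rw [hph, mul_assoc, hpp]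
    have e2 := star_left_conjugate_le_conjugate h2 p
    rw [hp, e1, mul_smul_comm, smul_mul_assoc, mul_one, hpp] at e2
    refine le_trans ?_ e2
    rw [← sub_nonneg]
    have : h * p - h = -(h * (1 - p)) := by noncomm_ring
    rw [this]; exact h4
  have hB : -h ≤ δ • (1 - p) := by
    have e0 : -h ≤ δ • (1 : A) := by
      have := neg_le_neg h1
      rwa [neg_neg] at this
    have e1 : (1 - p) * (-h) * (1 - p) = -(h * (1 - p)) := by
      have : (1 - p) * (-h) * (1 - p) = -(h * (1 - p)) + (p * h) * (1 - p) := by noncomm_ring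
      rw [this, hph]
      have : h * p * (1 - p) = h * p - h * (p * p) := by noncomm_ring
      rw [this, hpp, sub_self, add_zero]
    have e2 := star_left_conjugate_le_conjugate e0 (1 - p)
    rw [hq, e1, mul_smul_comm, smul_mul_assoc, mul_one, hqq] at e2
    refine le_trans ?_ e2
    rw [← sub_nonneg]
    have : -(h * (1 - p)) - -h = h * p := by noncomm_ring
    rw [this]; exact h3
  rcases hv with ⟨v, hv1, hv2⟩ | ⟨v, hv1, hv2⟩
  · obtain ⟨u, hu1, hu2, hu3, hu4⟩ := F06.step0 hδ hp hpp h1 hA hv1 hv2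
    refine ⟨u, hu1, hu2, -(δ / 4), ?_, ?_⟩
    · calc -((3 / 4 * δ) • (1 : A)) = -(δ • (1 : A)) - (-(δ / 4)) • (1 : A) := by
            rw [← neg_smul, ← neg_smul, ← sub_smul]; congr 1; ring
        _ ≤ _ := sub_le_sub_right hu3 _
    · calc _ ≤ (δ / 2) • (1 : A) - (-(δ / 4)) • (1 : A) := sub_le_sub_right hu4 _
        _ = _ := by rw [← sub_smul]; congr 1; ring
  · obtain ⟨u, hu1, hu2, hu3, hu4⟩ := F06.step0 (h := -h) (p := 1 - p) (v := v) hδ hq hqq
      (neg_le_neg h2) hB hv1 (by rw [sub_sub_cancel]; exact hv2)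
    have e : (2 : ℝ)⁻¹ • (-h + u * -h * u) = -((2 : ℝ)⁻¹ • (h + u * h * u)) := by
      rw [← smul_neg]
      congr 1
      noncomm_ring
    rw [e] at hu3 hu4
    refine ⟨u, hu1, hu2, δ / 4, ?_, ?_⟩
    · have h5 := neg_le_neg hu4
      rw [neg_neg] at h5
      calc -((3 / 4 * δ) • (1 : A)) = -((δ / 2) • (1 : A)) - (δ / 4) • (1 : A) := by
            rw [← neg_smul, ← neg_smul, ← sub_smul]; congr 1; ring
        _ ≤ _ := sub_le_sub_right h5 _
    · have h5 := neg_le_neg hu3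
      rw [neg_neg, neg_neg] at h5
      calc _ ≤ δ • (1 : A) - (δ / 4) • (1 : A) := sub_le_sub_right h5 _
        _ = _ := by rw [← sub_smul]; congr 1; ring

end abs

end Q9

theorem prove7_dix : Q_dix.{u} := by
  intro A _ hVN 𝒰 F _ q hF p hp N _ j hj τ hτ
  let _ := CStarAlgebra.spectralOrder N
  have := CStarAlgebra.spectralOrderedRing N
  let _ := CStarAlgebra.spectralOrder F
  have := CStarAlgebra.spectralOrderedRing F
  apply Q9.main _ hτ
  intro h δ hδ hh h1 h2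
  have hj1 : j 1 = q p := hj.one
  have hPj : ∀ y, q p * j y = j y := fun y => by rw [← hj1, ← map_mul, one_mul]
  have hjP : ∀ y, j y * q p = j y := fun y => by rw [← hj1, ← map_mul, mul_one]
  -- lift
  obtain ⟨a₀, ha₀⟩ := hF.surj (j h)
  set a := p * ((1 / 2 : ℂ) • (a₀ + star a₀)) * p with ha
  have has : star a = a := by
    rw [ha, star_mul, star_mul, hp.1, star_smul, star_add, star_star, add_comm (star a₀) a₀,
      ← mul_assoc]
    simp
  have hpa : p * a = a := by rw [ha, ← mul_assoc, ← mul_assoc, hp.2]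
  have hap : a * p = a := by rw [ha, mul_assoc, hp.2]
  have hqa : q a = j h := by
    have hjs : star (j h) = j h := by rw [← map_star, hh.star_eq]
    rw [ha, map_mul, map_mul, map_smul, map_add, map_star, ha₀, hjs, ← two_smul ℂ (j h), smul_smul]
    norm_num
    rw [hPj, hjP]
  obtain ⟨e, he, hpe, hcom, ⟨y1, hy1⟩, ⟨y2, hy2⟩⟩ := hVN.spec p a 0 hp has hpa
  have hep : e * p = e := by
    have := congrArg star hpe
    rwa [star_mul, he.1, hp.1] at this
  have hf : Prj (p - e) := by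
    refine ⟨by rw [star_sub, hp.1, he.1], ?_⟩
    have : (p - e) * (p - e) = p * p - p * e - e * p + e * e := by noncomm_ring
    rw [this, hp.2, he.2, hpe, hep]; abel
  have hpf : p * (p - e) = p - e := by rw [mul_sub, hp.2, hpe]
  -- the projection in the corner
  obtain ⟨Q, hQ⟩ := hj.surj (q e) (by rw [← map_mul, ← map_mul, hpe, hep])
  have hQ1 : star Q = Q := hj.inj (by rw [map_star, hQ, ← map_star, he.1])
  have hQ2 : Q * Q = Q := hj.inj (by rw [map_mul, hQ, ← map_mul, he.2])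
  have hQ' : j (1 - Q) = q (p - e) := by rw [map_sub, hj1, hQ, map_sub]
  have hQh : Q * h = h * Q := hj.inj (by
    rw [map_mul, map_mul, hQ, ← hqa, ← map_mul, ← map_mul, hcom])
  apply Q9.step2 hδ hQ1 hQ2 hQh h1 h2
  · apply Q9.nonneg_of_map j hj.inj
    · rw [IsSelfAdjoint, star_mul, hQ1, hh.star_eq, hQh]
    · have e1 : j (h * Q) = q (a * e - ((0 : ℝ) : ℂ) • e) := by
        rw [map_mul, hQ, ← hqa, ← map_mul]; simp
      rw [e1, hy1, map_mul, map_star]
      exact star_mul_self_nonneg _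
  · apply Q9.nonneg_of_map j hj.inj
    · rw [IsSelfAdjoint, star_neg, star_mul, hh.star_eq, star_sub, star_one, hQ1, sub_mul, mul_sub,
        one_mul, mul_one, hQh]
    · have e1 : j (-(h * (1 - Q))) = q (((0 : ℝ) : ℂ) • (p - e) - a * (p - e)) := by
        rw [map_neg, map_mul, hQ', ← hqa, ← map_mul]; simp
      rw [e1, hy2, map_mul, map_star]
      exact star_mul_self_nonneg _
  · obtain ⟨z, hz, ⟨v, hv1, hv2⟩, ⟨w, hw1, hw2⟩⟩ := hVN.comp e (p - e) he hf
    rcases hF.ult.dich z hz with hzU | hzU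
    · left
      have hqz : q z = 1 := hF.one z hzU
      have hpv : p * v = v := by
        rw [← hv2, ← mul_assoc, ← mul_assoc, ← hz.2 p, mul_assoc z p, hpf]
      have hvp : v * p = v := by
        have h5 := Q7.mul_init hv1 (Q7.cmul_prj hz he)
        rw [← h5, mul_assoc, mul_assoc, hep]
      obtain ⟨V, hV⟩ := hj.surj (q v) (by rw [← map_mul, ← map_mul, hpv, hvp])
      refine ⟨V, hj.inj ?_, hj.inj ?_⟩
      · rw [map_mul, map_star, hV, ← map_star, ← map_mul, hv1, map_mul, hqz, one_mul, hQ]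
      · rw [map_mul, hQ', hV, ← map_mul]
        conv_rhs => rw [← hv2]
        rw [map_mul, map_mul, map_mul, hqz, one_mul]
    · right
      have hz' := Q7.one_sub_cprj hz
      have hqz : q (1 - z) = 1 := hF.one _ hzU
      have hpv : p * w = w := by
        rw [← hw2, ← mul_assoc, ← mul_assoc, ← hz'.2 p, mul_assoc (1 - z) p, hpe]
      have hfp : (p - e) * p = p - e := by rw [sub_mul, hp.2, hep]
      have hvp : w * p = w := by
        have h5 := Q7.mul_init hw1 (Q7.cmul_prj hz' hf)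
        rw [← h5, mul_assoc, mul_assoc, hfp]
      obtain ⟨V, hV⟩ := hj.surj (q w) (by rw [← map_mul, ← map_mul, hpv, hvp])
      refine ⟨V, hj.inj ?_, hj.inj ?_⟩
      · rw [map_mul, map_star, hV, ← map_star, ← map_mul, hw1, map_mul, hqz, one_mul, hQ']
      · rw [map_mul, hQ, hV, ← map_mul]
        conv_rhs => rw [← hw2]
        rw [map_mul, map_mul, map_mul, hqz, one_mul]

end H759R2.Kad
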